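import Pool.Agent.H95.ESL.Stmts

/-!
Row TWS (MP_3ddf05_nt): twisting by a square.
-/

set_option autoImplicit false

namespace ESL

theorem tws_thm : S_TWS := by
  intro p _ a b s hs
  unfold aff
  refine Nat.card_congr (Equiv.mk
    (fun v => ⟨((s ^ 2)⁻¹ * v.1.1, (s ^ 3)⁻¹ * v.1.2), ?_⟩)
    (fun v => ⟨(s ^ 2 * v.1.1, s ^ 3 * v.1.2), ?_⟩) ?_ ?_)
  · have h := v.2
    have h6 : (s ^ 3) ^ 2 = s ^ 6 := by ring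
    have h2 : s ^ 2 ≠ 0 := pow_ne_zero 2 hs
    have h3 : s ^ 3 ≠ 0 := pow_ne_zero 3 hs
    show ((s ^ 3)⁻¹ * v.1.2) ^ 2 = ((s ^ 2)⁻¹ * v.1.1) ^ 3 + a * ((s ^ 2)⁻¹ * v.1.1) + b
    rw [mul_pow, h]
    field_simp
  · have h := v.2
    show (s ^ 3 * v.1.2) ^ 2 = (s ^ 2 * v.1.1) ^ 3 + a * (s ^ 2) ^ 2 * (s ^ 2 * v.1.1) +
      b * (s ^ 2) ^ 3
    rw [mul_pow, h]
    ring
  · intro v
    have h2 : s ^ 2 ≠ 0 := pow_ne_zero 2 hs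
    have h3 : s ^ 3 ≠ 0 := pow_ne_zero 3 hs
    apply Subtype.ext
    apply Prod.ext
    · show s ^ 2 * ((s ^ 2)⁻¹ * v.1.1) = v.1.1
      rw [mul_inv_cancel_left₀ h2]
    · show s ^ 3 * ((s ^ 3)⁻¹ * v.1.2) = v.1.2
      rw [mul_inv_cancel_left₀ h3]
  · intro v
    have h2 : s ^ 2 ≠ 0 := pow_ne_zero 2 hs
    have h3 : s ^ 3 ≠ 0 := pow_ne_zero 3 hs
    apply Subtype.ext
    apply Prod.ext
    · show (s ^ 2)⁻¹ * (s ^ 2 * v.1.1) = v.1.1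
      rw [inv_mul_cancel_left₀ h2]
    · show (s ^ 3)⁻¹ * (s ^ 3 * v.1.2) = v.1.2
      rw [inv_mul_cancel_left₀ h3]

end ESL
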